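import Pool.Agent.Helper96.PB.Defs
import Pool.Agent.Helper4.PH.Main
import Pool.Agent.Helper18.PH.P1
import Pool.Agent.Helper78.NQ.Main

/-!
# PB, B4: the average over the symbols number `0`
-/

set_option autoImplicit false

namespace Pool.Agent.Helper6.PB

open Finset Pool.Agent.Helper19.NF Pool.Agent.Helper74.NW Pool.Agent.Helper99.NQ Pool.Agent.Helper96.PB
open Pool.Agent.Helper74.NE (fine fine_apply)
open Pool.Agent.Helper96.PH (Cut Det Greedy CB opn)
open Pool.Agent.Helper74.NS (Expands)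

section put

variable {n D m S : ℕ} {F B G Z : Type} [Field F] [AddCommGroup B] [Module F B]

open Classical in
/-- The input with the symbols `γ` at the places `0`. -/
noncomputable def put (γ : B → F) (I : B × Word D m B → F) : B × Word D m B → F :=
  fun z => if z.2 = 0 then γ z.1 else I z

theorem put_zero (γ : B → F) (I : B × Word D m B → F) (b : B) : put γ I (b, 0) = γ b := by
  unfold put
  rw [if_pos rfl]

theorem put_put (γ γ' : B → F) (I : B × Word D m B → F) : put γ (put γ' I) = put γ I := by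
  funext z
  unfold put
  split_ifs <;> rfl

theorem put_self (I : B × Word D m B → F) : put (fun b => I (b, 0)) I = I := by
  funext z
  unfold put
  split_ifs with h
  · rw [← h]
  · rfl

theorem act_inr {P : NProg (B × Word D m B) F Z S} {γ : B → F} {s : Fin S} {z : Z} :
    (fixz P γ).act s = Sum.inr z ↔ P.act s = Sum.inr z := by
  show (P.act s).map _ id = Sum.inr z ↔ _
  rcases P.act s with t | z' <;> simp

open Classical in
theorem run_of_fixz {P : NProg (B × Word D m B) F Z S} {γ : B → F} {I : B × Word D m B → F} {s t : Fin S}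
    {l : List (B × Word D m B)} (h : (fixz P γ).Run I s l t) : P.Run (put γ I) s l t := by
  induction h with
  | nil s => exact NProg.Run.nil s
  | cons s s' t c next l h1 h2 _ ih =>
    have h1' : (P.act s).map (fun t => (t.1, fun y => t.2 (if t.1.2 = 0 then γ t.1.1 else y))) id =
      Sum.inl (c, next) := h1
    rcases h3 : P.act s with ⟨c', next'⟩ | z
    · rw [h3, Sum.map_inl, Sum.inl.injEq, Prod.mk.injEq] at h1'
      obtain ⟨h4, h5⟩ := h1'
      have h4 : c' = c := h4
      subst h4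
      subst h5
      exact NProg.Run.cons s s' t c' next' l h3 h2 ih
    · rw [h3] at h1'
      simp at h1'

open Classical in
theorem fixz_of_run {P : NProg (B × Word D m B) F Z S} {γ : B → F} {I J : B × Word D m B → F} {s t : Fin S}
    {l : List (B × Word D m B)} (hJ : J = put γ I) (h : P.Run J s l t) : (fixz P γ).Run I s l t := by
  subst hJ
  induction h with
  | nil s => exact NProg.Run.nil s
  | cons s s' t c next l h1 h2 _ ih =>
    refine NProg.Run.cons s s' t c (fun y => next (if c.2 = 0 then γ c.1 else y)) l ?_ h2 ih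
    show (P.act s).map (fun t => (t.1, fun y => t.2 (if t.1.2 = 0 then γ t.1.1 else y))) id = _
    rw [h1]
    rfl

theorem ends_fixz {P : NProg (B × Word D m B) F Z S} {γ : B → F} {I : B × Word D m B → F}
    {l : List (B × Word D m B)} {z : Z} : (fixz P γ).Ends I l z ↔ P.Ends (put γ I) l z := by
  unfold NProg.Ends
  refine exists_congr fun t => ?_
  rw [act_inr]
  exact and_congr_left fun _ => ⟨run_of_fixz, fixz_of_run rfl⟩

open Classical in
theorem det_fixz {P : NProg (B × Word D m B) F Z S} (hP : Det P) (γ : B → F) : Det (fixz P γ) := by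
  intro s c next h x
  have h1' : (P.act s).map (fun t => (t.1, fun y => t.2 (if t.1.2 = 0 then γ t.1.1 else y))) id =
    Sum.inl (c, next) := h
  rcases h3 : P.act s with ⟨c', next'⟩ | z
  · rw [h3, Sum.map_inl, Sum.inl.injEq, Prod.mk.injEq] at h1'
    obtain ⟨h4, h5⟩ := h1'
    subst h5
    exact hP s c' next' h3 _
  · rw [h3] at h1'
    simp at h1'

variable [Fintype B]

theorem tab_put (γ : B → F) (I : B × Word D m B → F) : tab (put γ I) = tab I := by
  classical
  funext b
  unfold tab word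
  refine Finset.sum_congr rfl fun l _ => ?_
  by_cases h : l = 0
  · rw [h, smul_zero, smul_zero]
  · unfold put
    show (if l = 0 then γ b else I (b, l)) • l = _
    rw [if_neg h]

theorem out_put [NeZero m] (g : Fin D → Equiv.Perm (Fin n)) (x0 : Fin n × Fin m → B) (R : ℕ) (γ : B → F)
    (I : B × Word D m B → F) : Pool.Agent.Helper96.PB.out g x0 R (put γ I) = gout g x0 R γ I := by
  unfold Pool.Agent.Helper96.PB.out gout
  refine Finset.sum_congr rfl fun v _ => ?_
  rw [put_zero, tab_put]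

open Classical in
theorem card_put [Fintype F] (p : (B × Word D m B → F) → Prop) :
    ∑ γ : B → F, Nat.card {I : B × Word D m B → F // p (put γ I)} = Nat.card (B → F) * Nat.card {J // p J} := by
  rw [← Nat.card_sigma, ← Nat.card_prod,
    ← Nat.card_congr (Equiv.subtypeProdEquivSigmaSubtype (fun (γ : B → F) (I : B × Word D m B → F) => p (put γ I)))]
  refine Nat.card_congr
    { toFun := fun x => (fun b => x.1.2 (b, 0), ⟨put x.1.1 x.1.2, x.2⟩)
      invFun := fun x => ⟨(fun b => x.2.1 (b, 0), put x.1 x.2.1), ?_⟩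
      left_inv := ?_
      right_inv := ?_ }
  · show p (put (fun b => x.2.1 (b, 0)) (put x.1 x.2.1))
    rw [put_put, put_self]
    exact x.2.2
  · rintro ⟨⟨γ, I⟩, hI⟩
    refine Subtype.ext (Prod.ext ?_ ?_)
    · funext b
      exact put_zero γ I b
    · show put (fun b => I (b, 0)) (put γ I) = I
      rw [put_put, put_self]
  · rintro ⟨β, J, hJ⟩
    refine Prod.ext ?_ (Subtype.ext ?_)
    · funext b
      exact put_zero β J b
    · show put (fun b => J (b, 0)) (put β J) = J
      rw [put_put, put_self]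

end put

/-- The statement of B3. -/
def DetB (F B : Type) [Field F] [Fintype F] [AddCommGroup B] [Module F B] [Fintype B] (n D m S : ℕ) [NeZero m] :
    Prop :=
  ∀ (P : NProg (B × Word D m B) F F S) (_ : Det P)
    (g : Fin D → Equiv.Perm (Fin n)) (x0 : Fin n × Fin m → B) {h T a R w N : ℕ} (_ : Expands g a) (_ : 1 ≤ a)
    (_ : 0 < h) (_ : h + 1 ≤ Fintype.card (Word D m B)) (η : ℝ)
    (_ : η = 1 + (1 - (T : ℝ) / Fintype.card (B × Word D m B) - (h : ℝ) / Fintype.card (Word D m B)) / 2)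
    (_ : 1 ≤ η) (_ : S ≤ 2 ^ R) (γ : B → F) {E : ℝ} (_ : 0 ≤ E) (_ : N + (w + 1) * a ≤ n)
    (_ : ∀ p, N ≤ p → CB γ (Fin p × Fin m) (2 * w + 1) E),
    (Nat.card {I // CF (fine g) x0 R (tab I) ∧ ∃ l, P.Ends I l (gout g x0 R γ I) ∧ Cut T (w + 1) l} : ℝ) ≤
      Nat.card {I // ∃ l z, P.Ends I l z ∧ Cut T (w + 1) l} / Fintype.card F +
        (errA n D m a R S ((h : ℝ) / Fintype.card (Word D m B)) η + (S * (D * m + 1) ^ n) ^ (w + 1) *
          (E * (1 / ((h : ℝ) / Fintype.card (Word D m B))) ^ (2 * (w + 1) * n))) *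
          Nat.card (B × Word D m B → F)

section main

variable {n D m S : ℕ} [NeZero m] {F B : Type} [Field F] [Fintype F] [AddCommGroup B] [Module F B] [Fintype B]

theorem errA_nonneg {a R : ℕ} {r η : ℝ} (hr : 0 ≤ r) (hη : 0 ≤ η) : 0 ≤ errA n D m a R S r η := by
  unfold errA
  positivity

/-- B4, from B3. -/
theorem main_bound_of (hB : DetB F B n D m S) (P : NProg (B × Word D m B) F F S) (hP : Det P)
    (g : Fin D → Equiv.Perm (Fin n))
    (x0 : Fin n × Fin m → B) (hx0 : Function.Injective x0) {h T a R w : ℕ} (hX : Expands g a) (ha : 1 ≤ a)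
    (hh : 0 < h) (hL : h + 1 ≤ Fintype.card (Word D m B)) (η : ℝ)
    (hη : η = 1 + (1 - (T : ℝ) / Fintype.card (B × Word D m B) - (h : ℝ) / Fintype.card (Word D m B)) / 2)
    (hη1 : 1 ≤ η) (hS : S ≤ 2 ^ R) (hn : (w + 1) * a ≤ n) :
    (Nat.card {I // ∃ l, P.Ends I l (Pool.Agent.Helper96.PB.out g x0 R I) ∧ Cut T (w + 1) l} : ℝ) ≤
      Nat.card {I // ∃ l z, P.Ends I l z ∧ Cut T (w + 1) l} / Fintype.card F +
        (((R + 1) * (n * m)) ^ 2 / Fintype.card B +
          Fintype.card F * 2 ^ (2 * w + 2) / Real.sqrt (Fintype.card B) +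
          errA n D m a R S ((h : ℝ) / Fintype.card (Word D m B)) η + (S * (D * m + 1) ^ n) ^ (w + 1) *
          ((Fintype.card B : ℝ) ^ (-((n - (w + 1) * a : ℕ) * m : ℝ) / 2 ^ (2 * w + 3)) *
            (1 / ((h : ℝ) / Fintype.card (Word D m B))) ^ (2 * (w + 1) * n))) *
          Nat.card (B × Word D m B → F) := by
  classical
  obtain ⟨c0⟩ := Pool.Agent.Helper4.PH.nonempty_dir (m := m) ha hX hn
  have hk0 : 0 < Fintype.card B := Fintype.card_pos_iff.2 ⟨0⟩
  have hk : (1 : ℝ) ≤ Fintype.card B := by exact_mod_cast hk0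
  have hkR : (0 : ℝ) < Fintype.card B := by linarith
  set E : ℝ := (Fintype.card B : ℝ) ^ (-((n - (w + 1) * a : ℕ) * m : ℝ) / 2 ^ (2 * w + 3)) with hE
  set N : ℝ := (Nat.card (B × Word D m B → F) : ℝ) with hN
  set r : ℝ := (h : ℝ) / Fintype.card (Word D m B) with hr
  have hE0 : 0 ≤ E := Real.rpow_nonneg hkR.le _
  have hN0 : 0 ≤ N := Nat.cast_nonneg _
  have hr0 : 0 ≤ r := by positivity
  have hA0 : 0 ≤ errA n D m a R S r η := errA_nonneg hr0 (by linarith)
  set K : ℝ := (S * (D * m + 1) ^ n : ℝ) ^ (w + 1) * (E * (1 / r) ^ (2 * (w + 1) * n)) with hK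
  have hK0 : 0 ≤ K := by positivity
  have hbns := Pool.Agent.Helper18.PH.bns2 B F (2 * w + 1)
  have h1 := Pool.Agent.Helper4.PH.avg
    (f := fun γ : B → F =>
      (Nat.card {I // ∃ l, (fixz P γ).Ends I l (gout g x0 R γ I) ∧ Cut T (w + 1) l} : ℝ) -
        Nat.card {I // ∃ l z, (fixz P γ).Ends I l z ∧ Cut T (w + 1) l} / Fintype.card F)
    (bad := fun γ : B → F => ¬ ∀ (ι : Type) [Fintype ι],
        CB γ ι (2 * w + 1) ((Fintype.card B : ℝ) ^ (-(Fintype.card ι : ℝ) / 2 ^ (2 * w + 1 + 2)))) N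
    (((R + 1) * (n * m)) ^ 2 / Fintype.card B + (errA n D m a R S r η + K))
    (Fintype.card F * 2 ^ (2 * w + 1 + 1) / Real.sqrt (Fintype.card B)) hN0 (by positivity) (fun γ => ?_)
    (fun γ hγ => ?_) hbns
  · rw [Finset.sum_sub_distrib, ← Finset.sum_div] at h1
    have h2 : ∀ γ : B → F, (Nat.card {I // ∃ l, (fixz P γ).Ends I l (gout g x0 R γ I) ∧ Cut T (w + 1) l} : ℝ) =
        Nat.card {I : B × Word D m B → F //
          (fun J => ∃ l, P.Ends J l (Pool.Agent.Helper96.PB.out g x0 R J) ∧ Cut T (w + 1) l) (put γ I)} := by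
      intro γ
      simp only [ends_fixz, out_put]
    have h3 : ∀ γ : B → F, (Nat.card {I // ∃ l z, (fixz P γ).Ends I l z ∧ Cut T (w + 1) l} : ℝ) =
        Nat.card {I : B × Word D m B → F // (fun J => ∃ l z, P.Ends J l z ∧ Cut T (w + 1) l) (put γ I)} := by
      intro γ
      simp only [ends_fixz]
    have h5 := card_put (D := D) (m := m) (F := F) (B := B)
      (fun J => ∃ l, P.Ends J l (Pool.Agent.Helper96.PB.out g x0 R J) ∧ Cut T (w + 1) l)
    have h6 := card_put (D := D) (m := m) (F := F) (B := B) (fun J => ∃ l z, P.Ends J l z ∧ Cut T (w + 1) l)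
    rw [Finset.sum_congr rfl fun γ _ => h2 γ, Finset.sum_congr rfl fun γ _ => h3 γ, ← Nat.cast_sum, ← Nat.cast_sum,
      h5, h6] at h1
    push_cast at h1
    have hG : (0 : ℝ) < Nat.card (B → F) := by exact_mod_cast Nat.card_pos
    refine le_of_mul_le_mul_left ?_ hG
    have e1 : 2 * w + 1 + 1 = 2 * w + 2 := rfl
    rw [e1] at h1
    have h7 := sub_le_iff_le_add.1 h1
    refine h7.trans (le_of_eq ?_)
    simp only [Nat.card_eq_fintype_card, hN]
    ring
  · have h2 : (Nat.card {I // ∃ l, (fixz P γ).Ends I l (gout g x0 R γ I) ∧ Cut T (w + 1) l} : ℝ) ≤ N := by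
      rw [hN]
      exact_mod_cast Nat.card_le_card_of_injective (fun I : {I : B × Word D m B → F //
        ∃ l, (fixz P γ).Ends I l (gout g x0 R γ I) ∧ Cut T (w + 1) l} => I.1) Subtype.val_injective
    have h3 : (0 : ℝ) ≤ Nat.card {I // ∃ l z, (fixz P γ).Ends I l z ∧ Cut T (w + 1) l} / Fintype.card F := by
      positivity
    show (Nat.card {I // ∃ l, (fixz P γ).Ends I l (gout g x0 R γ I) ∧ Cut T (w + 1) l} : ℝ) - _ ≤ N
    linarith
  · rw [not_not] at hγ
    have h2 : ∀ q, n - (w + 1) * a ≤ q → CB γ (Fin q × Fin m) (2 * w + 1) E := by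
      intro q hq
      refine Pool.Agent.Helper4.PH.CB.mono (hγ (Fin q × Fin m)) ?_
      rw [hE]
      have e1 : 2 * w + 1 + 2 = 2 * w + 3 := rfl
      rw [e1]
      refine Real.rpow_le_rpow_of_exponent_le hk ?_
      rw [Fintype.card_prod, Fintype.card_fin, Fintype.card_fin, neg_div, neg_div, neg_le_neg_iff]
      push_cast
      have : ((n - (w + 1) * a : ℕ) : ℝ) ≤ q := by exact_mod_cast hq
      gcongr
    have h3 := hB (fixz P γ) (det_fixz hP γ) g x0 (T := T) (w := w) (N := n - (w + 1) * a) hX ha hh hL η hη hη1 hS γ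
      hE0 (by omega) h2
    have h4 := Pool.Agent.Helper78.NQ.card_cf (F := F) g x0 hx0 R c0
    have h5 : (Nat.card {I : B × Word D m B → F // ∃ l, (fixz P γ).Ends I l (gout g x0 R γ I) ∧ Cut T (w + 1) l} : ℝ) ≤
        Nat.card {I : B × Word D m B → F // ¬ CF (fine g) x0 R (tab I)} +
          Nat.card {I : B × Word D m B → F // CF (fine g) x0 R (tab I) ∧
            ∃ l, (fixz P γ).Ends I l (gout g x0 R γ I) ∧ Cut T (w + 1) l} := by
      have h6 : {I : B × Word D m B → F | ∃ l, (fixz P γ).Ends I l (gout g x0 R γ I) ∧ Cut T (w + 1) l} ⊆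
          {I | ¬ CF (fine g) x0 R (tab I)} ∪ {I | CF (fine g) x0 R (tab I) ∧
            ∃ l, (fixz P γ).Ends I l (gout g x0 R γ I) ∧ Cut T (w + 1) l} := by
        intro I hI
        by_cases hc : CF (fine g) x0 R (tab I)
        · exact Or.inr ⟨hc, hI⟩
        · exact Or.inl hc
      have h7 := (Set.ncard_le_ncard h6 (Set.toFinite _)).trans (Set.ncard_union_le _ _)
      exact_mod_cast h7
    show (Nat.card {I // ∃ l, (fixz P γ).Ends I l (gout g x0 R γ I) ∧ Cut T (w + 1) l} : ℝ) - _ ≤ _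
    rw [← hr, ← hN] at h3
    rw [← hN] at h4
    have h8 : (errA n D m a R S r η + (S * (D * m + 1) ^ n : ℝ) ^ (w + 1) * (E * (1 / r) ^ (2 * (w + 1) * n))) * N =
        (errA n D m a R S r η + K) * N := rfl
    rw [h8] at h3
    linarith

end main

end Pool.Agent.Helper6.PB
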