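import Pool.Agent.Helper96.PB.Defs
import Pool.Agent.Helper89.NQ.Rec

/-!
# PB, A1: the recursion
-/

namespace Pool.Agent.Helper6.PB

open Finset Pool.Agent.Helper19.NF Pool.Agent.Helper74.NW Pool.Agent.Helper99.NQ Pool.Agent.Helper96.PB
open Pool.Agent.Helper74.NE (fine fine_apply)
open Pool.Agent.Helper74.NS (Expands)
open Pool.Agent.Helper89.NQ (free_append_left free_append_right card_le_gap)

open Classical in
theorem free_append {D m : ℕ} {B : Type} [Fintype B] (c c' : List (B × Word D m B)) :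
    free (c ++ c') = free c ∩ free c' := by
  ext z
  simp only [free, mem_filter, mem_univ, true_and, List.mem_append, not_or, mem_inter]

variable {n D m S : ℕ} [NeZero m] {F B Z : Type} [Field F] [AddCommGroup B] [Module F B] [Fintype B]

/-- If `comp` has at least `a` nodes, then at least `4 a` nodes of the row are full. -/
theorem full_of_comp (g : Fin D → Equiv.Perm (Fin n)) (x0 : Fin n × Fin m → B) (h a i : ℕ) (hX : Expands g a)
    (I : B × Word D m B → F) (V : Finset (B × Word D m B)) (h4 : a ≤ (comp g x0 h i I V).card) :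
    4 * a ≤ (full g x0 h i I V).card := by
  classical
  refine (hX _ h4).trans (card_le_card ?_)
  intro v hv
  obtain ⟨s, u, hu, rfl⟩ := (mem_filter.1 hv).2
  have h3 := (mem_filter.1 hu).2
  exact mem_filter.2 ⟨mem_univ _, fun t => h3 s t⟩

/-- PB, A1. -/
theorem exists_inD (P : NProg (B × Word D m B) F Z S) (g : Fin D → Equiv.Perm (Fin n)) (x0 : Fin n × Fin m → B)
    (h T a R : ℕ) (hX : Expands g a) (ha : 1 ≤ a) (hL : h + 1 ≤ Fintype.card (Word D m B))
    {I : B × Word D m B → F} (hcf : CF (fine g) x0 R (tab I)) {s t : Fin S} {c : List (B × Word D m B)}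
    (hc : P.Run I s c t) (hlen : c.length ≤ 2 ^ R) (hT : Fintype.card (B × Word D m B) ≤ (free c).card + T)
    (hcomp : a ≤ (comp g x0 h R I (free c)).card) :
    ∃ i < R, ∃ s' p k1 k2 A h1 h2, k1 ≤ 2 ^ R ∧ k2 ≤ 2 ^ R ∧ A.card = a ∧ InD P g x0 h T i s' p k1 k2 A h1 h2 I := by
  classical
  induction R generalizing s t c with
  | zero =>
    exfalso
    have h1 := full_of_comp g x0 h a 0 hX I _ hcomp
    have h2 : 0 < (full g x0 h 0 I (free c)).card := by omega
    obtain ⟨u, hu⟩ := card_pos.1 h2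
    have h3 := (mem_filter.1 hu).2 0
    have h4 := card_le_gap c (val (fine g) x0 (tab I) 0 (u, 0))
    rw [pow_zero] at hlen
    omega
  | succ R ih =>
    have h1 : P.Run I s (c.take (2 ^ R) ++ c.drop (2 ^ R)) t := by
      rw [List.take_append_drop]
      exact hc
    obtain ⟨p, hp1, hp2⟩ := run_split _ h1
    have hl1 : (c.take (2 ^ R)).length ≤ 2 ^ R := by
      rw [List.length_take]
      exact min_le_left _ _
    have hl2 : (c.drop (2 ^ R)).length ≤ 2 ^ R := by
      rw [List.length_drop]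
      rw [pow_succ] at hlen
      omega
    have hpow : 2 ^ R ≤ 2 ^ (R + 1) := Nat.pow_le_pow_right (by norm_num) (Nat.le_succ R)
    have hfr : free (c.take (2 ^ R)) ∩ free (c.drop (2 ^ R)) = free c := by
      rw [← free_append, List.take_append_drop]
    have hfull := full_of_comp g x0 h a (R + 1) hX I _ hcomp
    have hT1 : Fintype.card (B × Word D m B) ≤ (free (c.take (2 ^ R))).card + T := by
      have h3 := card_le_card (inter_subset_left (s₁ := free (c.take (2 ^ R))) (s₂ := free (c.drop (2 ^ R))))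
      rw [hfr] at h3
      omega
    have hT2 : Fintype.card (B × Word D m B) ≤ (free (c.drop (2 ^ R))).card + T := by
      have h3 := card_le_card (inter_subset_right (s₁ := free (c.take (2 ^ R))) (s₂ := free (c.drop (2 ^ R))))
      rw [hfr] at h3
      omega
    by_cases hA : a ≤ (comp g x0 h R I (free (c.take (2 ^ R)))).card
    · obtain ⟨i, hi, s', p', k1, k2, A, h1', h2', hk1, hk2, h3⟩ := ih (hcf.mono (Nat.le_succ R)) hp1 hl1 hT1 hA
      exact ⟨i, by omega, s', p', k1, k2, A, h1', h2', hk1.trans hpow, hk2.trans hpow, h3⟩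
    by_cases hB : a ≤ (comp g x0 h R I (free (c.drop (2 ^ R)))).card
    · obtain ⟨i, hi, s', p', k1, k2, A, h1', h2', hk1, hk2, h3⟩ := ih (hcf.mono (Nat.le_succ R)) hp2 hl2 hT2 hB
      exact ⟨i, by omega, s', p', k1, k2, A, h1', h2', hk1.trans hpow, hk2.trans hpow, h3⟩
    -- the full nodes which are complete in neither
    have hJc : a ≤ (full g x0 h (R + 1) I (free c) \ (comp g x0 h R I (free (c.take (2 ^ R))) ∪
        comp g x0 h R I (free (c.drop (2 ^ R))))).card := by
      have h2 := card_union_le (comp g x0 h R I (free (c.take (2 ^ R)))) (comp g x0 h R I (free (c.drop (2 ^ R))))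
      have h3 := le_card_sdiff (comp g x0 h R I (free (c.take (2 ^ R))) ∪
        comp g x0 h R I (free (c.drop (2 ^ R)))) (full g x0 h (R + 1) I (free c))
      omega
    obtain ⟨A, hAs, hAc⟩ := exists_subset_card_eq hJc
    have hw : ∀ c' : List (B × Word D m B), ∀ u, u ∉ comp g x0 h R I (free c') →
        ∃ r : Fin D × Fin m, h ≤ gap (free c') (val (fine g) x0 (tab I) R (g r.1 u, r.2)) := by
      intro c' u hu
      by_contra h2
      push Not at h2
      exact hu (mem_filter.2 ⟨mem_univ _, fun s t => h2 (s, t)⟩)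
    have hn1 : ∀ u ∈ A, u ∉ comp g x0 h R I (free (c.take (2 ^ R))) := fun u hu h2 =>
      (mem_sdiff.1 (hAs hu)).2 (mem_union_left _ h2)
    have hn2 : ∀ u ∈ A, u ∉ comp g x0 h R I (free (c.drop (2 ^ R))) := fun u hu h2 =>
      (mem_sdiff.1 (hAs hu)).2 (mem_union_right _ h2)
    obtain ⟨u0, hu0⟩ := card_pos.1 (lt_of_lt_of_le (Nat.succ_le_iff.1 ha) hAc.ge)
    obtain ⟨r0, -⟩ := hw _ u0 (hn1 u0 hu0)
    have hw' : ∀ c' : List (B × Word D m B), ∃ f : Fin n → Fin D × Fin m, ∀ u, u ∉ comp g x0 h R I (free c') →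
        h ≤ gap (free c') (val (fine g) x0 (tab I) R (pos g f u)) := by
      intro c'
      have h2 : ∀ u, ∃ r : Fin D × Fin m, u ∉ comp g x0 h R I (free c') →
          h ≤ gap (free c') (val (fine g) x0 (tab I) R (g r.1 u, r.2)) := by
        intro u
        by_cases hu : u ∈ comp g x0 h R I (free c')
        · exact ⟨r0, fun h3 => absurd hu h3⟩
        · obtain ⟨r, hr⟩ := hw c' u hu
          exact ⟨r, fun _ => hr⟩
      choose f hf using h2
      exact ⟨f, fun u hu => hf u hu⟩
    obtain ⟨f1, hf1⟩ := hw' (c.take (2 ^ R))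
    obtain ⟨f2, hf2⟩ := hw' (c.drop (2 ^ R))
    refine ⟨R, Nat.lt_succ_self R, s, p, (c.take (2 ^ R)).length, (c.drop (2 ^ R)).length, A, f1, f2,
      hl1.trans hpow, hl2.trans hpow, hAc, hcf.mono (Nat.le_succ R), c.take (2 ^ R), c.drop (2 ^ R), t, hp1, hp2,
      rfl, rfl, ?_, ?_, fun u hu => hf1 u (hn1 u hu), fun u hu => hf2 u (hn2 u hu)⟩
    · rw [hfr]
      exact hT
    · intro u hu t'
      rw [hfr]
      exact (mem_filter.1 (mem_sdiff.1 (hAs hu)).1).2 t'

end Pool.Agent.Helper6.PB
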