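import Pool.Agent.Helper6.PB.Main
import Pool.Agent.Helper6.PB.Rec
import Pool.Agent.Helper89.PB.Card
import Pool.Agent.Helper92.PB.A4
import Pool.Agent.Helper27.PB.Det

/-!
# PB: the main bound
-/

set_option autoImplicit false

namespace Pool.Agent.Helper6.PB

open Finset Pool.Agent.Helper19.NF Pool.Agent.Helper74.NW Pool.Agent.Helper99.NQ Pool.Agent.Helper96.PB
open Pool.Agent.Helper74.NE (fine fine_apply)
open Pool.Agent.Helper96.PH (Cut Det Greedy CB opn)
open Pool.Agent.Helper74.NS (Expands)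

variable {n D m S : ℕ} [NeZero m] {F B Z : Type} [Field F] [Fintype F] [AddCommGroup B] [Module F B] [Fintype B]

/-- A4: all types together. -/
theorem bad_bound (P : NProg (B × Word D m B) F Z S) (hP : Det P) (g : Fin D → Equiv.Perm (Fin n))
    (x0 : Fin n × Fin m → B) (h T a R : ℕ) (hX : Expands g a) (ha : 1 ≤ a) (hh : 0 < h)
    (hL : h + 1 ≤ Fintype.card (Word D m B)) (η : ℝ)
    (hη : η = 1 + (1 - (T : ℝ) / Fintype.card (B × Word D m B) - (h : ℝ) / Fintype.card (Word D m B)) / 2)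
    (hη1 : 1 ≤ η) :
    (Nat.card {I // CF (fine g) x0 R (tab I) ∧ ∃ s c t, P.Run I s c t ∧ c.length ≤ 2 ^ R ∧
        Fintype.card (B × Word D m B) ≤ (free c).card + T ∧ a ≤ (comp g x0 h R I (free c)).card} : ℝ) ≤
      errA n D m a R S ((h : ℝ) / Fintype.card (Word D m B)) η * Nat.card (B × Word D m B → F) := by
  have h1 := Pool.Agent.Helper92.PB.bad_bound_of P g x0 h T a R ha
    (δ := 2 * (1 / ((h : ℝ) / Fintype.card (Word D m B))) ^ (2 * a) / η ^ (m * a))
    (fun I hcf hex => by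
      obtain ⟨s, c, t, hc, hlen, hT, hcomp⟩ := hex
      exact exists_inD P g x0 h T a R hX ha hL hcf hc hlen hT hcomp)
    (fun i s p k1 k2 A h1 h2 hA => by
      have := Pool.Agent.Helper89.PB.card_inD P hP g x0 h T i s p k1 k2 A h1 h2 hh η hη hη1
      rw [hA] at this
      exact this)
  refine h1.trans (le_of_eq ?_)
  unfold errA
  ring

theorem detB : DetB F B n D m S := by
  intro P hP g x0 h T a R w N hX ha hh hL η hη hη1 hS γ E hE0 hN hE
  exact Pool.Agent.Helper27.PB.det_bound_of_bad P hP g x0 hX ha hh hL hS γ hE0 hN hE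
    (bad_bound P hP g x0 h T a R hX ha hh hL η hη hη1)

/-- B4. -/
theorem main_bound (P : NProg (B × Word D m B) F F S) (hP : Det P) (g : Fin D → Equiv.Perm (Fin n))
    (x0 : Fin n × Fin m → B) (hx0 : Function.Injective x0) {h T a R w : ℕ} (hX : Expands g a) (ha : 1 ≤ a)
    (hh : 0 < h) (hL : h + 1 ≤ Fintype.card (Word D m B)) (η : ℝ)
    (hη : η = 1 + (1 - (T : ℝ) / Fintype.card (B × Word D m B) - (h : ℝ) / Fintype.card (Word D m B)) / 2)
    (hη1 : 1 ≤ η) (hS : S ≤ 2 ^ R) (hn : (w + 1) * a ≤ n) :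
    (Nat.card {I // ∃ l, P.Ends I l (Pool.Agent.Helper96.PB.out g x0 R I) ∧ Cut T (w + 1) l} : ℝ) ≤
      Nat.card {I // ∃ l z, P.Ends I l z ∧ Cut T (w + 1) l} / Fintype.card F +
        (((R + 1) * (n * m)) ^ 2 / Fintype.card B +
          Fintype.card F * 2 ^ (2 * w + 2) / Real.sqrt (Fintype.card B) +
          errA n D m a R S ((h : ℝ) / Fintype.card (Word D m B)) η + (S * (D * m + 1) ^ n) ^ (w + 1) *
          ((Fintype.card B : ℝ) ^ (-((n - (w + 1) * a : ℕ) * m : ℝ) / 2 ^ (2 * w + 3)) *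
            (1 / ((h : ℝ) / Fintype.card (Word D m B))) ^ (2 * (w + 1) * n))) *
          Nat.card (B × Word D m B → F) :=
  main_bound_of detB P hP g x0 hx0 hX ha hh hL η hη hη1 hS hn

end Pool.Agent.Helper6.PB
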